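import Mathlib

/-!
# Automata whose transition monoid lies in DS: definitions
-/

set_option autoImplicit false

namespace Pool.Agent.Y555.DS

/-- The two-sided ideal `M x M` of a monoid. -/
def ideal {M : Type*} [Monoid M] (x : M) : Set M := {m | ∃ u v : M, m = u * x * v}

/-- The class `DS`: if `MxM = MyM = MzM = MtM = MxyM` then `MxyM = MztM`. -/
def InDS (M : Type*) [Monoid M] : Prop :=
  ∀ x y z t : M, ideal x = ideal y → ideal y = ideal z → ideal z = ideal t →
    ideal t = ideal (x * y) → ideal (x * y) = ideal (z * t)

/-- The action of a word on a state. -/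
def act {Q A : Type*} (δ : Q → A → Q) (w : List A) (q : Q) : Q := w.foldl δ q

/-- The transition monoid: all the maps `q ↦ δ(q, w)` under composition. -/
def transMonoid {Q A : Type*} (δ : Q → A → Q) : Submonoid (Function.End Q) where
  carrier := {f | ∃ w : List A, f = act δ w}
  one_mem' := ⟨[], rfl⟩
  mul_mem' := by
    rintro f g ⟨u, rfl⟩ ⟨v, rfl⟩
    refine ⟨v ++ u, ?_⟩
    funext q
    show act δ u (act δ v q) = act δ (v ++ u) q
    simp [act, List.foldl_append]

/-- `w` is a reset word: the set `{δ(q, w) : q ∈ Q}` has exactly one element. -/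
def IsReset {Q A : Type*} (δ : Q → A → Q) (w : List A) : Prop :=
  (Set.range (act δ w)).ncard = 1

end Pool.Agent.Y555.DS
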