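import Mathlib
import Pool.Agent.Y555.DSDefs

/-!
# Reset thresholds of synchronizing automata whose transition monoid lies in DS

Library for the result `MP_305c6f_lc.ExactValue`.
-/

set_option autoImplicit false

namespace Pool.Agent.Y555.DS

theorem mem_ideal_self {M : Type*} [Monoid M] (x : M) : x ∈ ideal x := ⟨1, 1, by simp⟩

theorem ideal_subset {M : Type*} [Monoid M] {x y : M} (h : x ∈ ideal y) : ideal x ⊆ ideal y := by
  rintro m ⟨u, v, rfl⟩
  obtain ⟨a, b, rfl⟩ := h
  exact ⟨u * a, b * v, by simp [mul_assoc]⟩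

/-- In a finite monoid of class `DS` let `N` be a proper ideal such that for all `x, y ∉ N` there
is `m` with `x m y ∉ N`. Then the complement of `N` is closed under products. -/
theorem prime_of_DS {M : Type*} [Monoid M] [Finite M] (hM : InDS M) (N : Set M)
    (hl : ∀ u x, x ∈ N → u * x ∈ N) (hr : ∀ u x, x ∈ N → x * u ∈ N) (h1 : (1 : M) ∉ N)
    (hc : ∀ x y, x ∉ N → y ∉ N → ∃ m, x * m * y ∉ N) :
    ∀ x y, x ∉ N → y ∉ N → x * y ∉ N := by
  classical
  have hid : ∀ x y, x ∈ ideal y → y ∈ N → x ∈ N := by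
    rintro x y ⟨u, v, rfl⟩ hy
    exact hr _ _ (hl _ _ hy)
  -- an element outside `N` with ideal of least size
  obtain ⟨z, hzN, hz⟩ : ∃ z, z ∉ N ∧ ∀ y, y ∉ N → (ideal z).ncard ≤ (ideal y).ncard := by
    have hne : {z : M | z ∉ N}.Nonempty := ⟨1, h1⟩
    obtain ⟨z, hz, hz2⟩ := Set.exists_min_image {z : M | z ∉ N} (fun z => (ideal z).ncard)
      (Set.toFinite _) hne
    exact ⟨z, hz, hz2⟩
  have hmin : ∀ y, y ∉ N → y ∈ ideal z → ideal y = ideal z := by
    intro y hy hyz
    exact Set.eq_of_subset_of_ncard_le (ideal_subset hyz) (hz y hy) (Set.toFinite _)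
  intro x y hx hy hxy
  obtain ⟨m, hm⟩ := hc z z hzN hzN
  obtain ⟨m1, hm1⟩ := hc z x hzN hx
  obtain ⟨m2, hm2⟩ := hc y z hy hzN
  -- four elements of the class of `z`
  have ha : z * m ∉ N := fun h => hm (hr _ _ h)
  have hIa : ideal (z * m) = ideal z := hmin _ ha ⟨1, m, by simp⟩
  have hIab : ideal (z * m * z) = ideal z := hmin _ hm ⟨1, m * z, by simp [mul_assoc]⟩
  have hIp : ideal (z * m1 * x) = ideal z := hmin _ hm1 ⟨1, m1 * x, by simp [mul_assoc]⟩
  have hIq : ideal (y * m2 * z) = ideal z := hmin _ hm2 ⟨y * m2, 1, by simp⟩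
  have key := hM (z * m) z (z * m1 * x) (y * m2 * z) hIa hIp.symm (hIp.trans hIq.symm)
    (hIq.trans hIab.symm)
  have hzin : z ∈ ideal (z * m1 * x * (y * m2 * z)) := by
    rw [← key, hIab]
    exact mem_ideal_self z
  refine hzN (hid z _ hzin ?_)
  have : z * m1 * x * (y * m2 * z) = z * m1 * (x * y) * (m2 * z) := by simp [mul_assoc]
  rw [this]
  exact hr _ _ (hl _ _ hxy)

section Linear

variable {Q A : Type*} [Fintype Q] (δ : Q → A → Q)

omit [Fintype Q] in
theorem act_mem (w : List A) : (act δ w : Function.End Q) ∈ transMonoid δ := ⟨w, rfl⟩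

omit [Fintype Q] in
theorem act_append (u v : List A) (q : Q) : act δ (u ++ v) q = act δ v (act δ u q) := by
  simp [act, List.foldl_append]

/-- invariant subspaces of the space of functions on the states -/
def Inv (W : Submodule ℚ (Q → ℚ)) : Prop :=
  ∀ w : List A, ∀ f ∈ W, (fun q => f (act δ w q)) ∈ W

/-- the constant functions -/
def cst (Q : Type*) : Submodule ℚ (Q → ℚ) := Submodule.span ℚ {fun _ => (1 : ℚ)}

omit [Fintype Q] in
theorem mem_cst {f : Q → ℚ} : f ∈ cst Q ↔ ∃ c : ℚ, f = fun _ => c := by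
  unfold cst
  rw [Submodule.mem_span_singleton]
  constructor
  · rintro ⟨c, rfl⟩
    exact ⟨c, by funext q; simp⟩
  · rintro ⟨c, rfl⟩
    exact ⟨c, by funext q; simp⟩

omit [Fintype Q] in
theorem inv_cst : Inv δ (cst Q) := by
  intro w f hf
  obtain ⟨c, rfl⟩ := mem_cst.1 hf
  exact mem_cst.2 ⟨c, rfl⟩

omit [Fintype Q] in
/-- If `W'` is maximal among the proper invariant subspaces of `W` then the functions outside
generate `W` over `W'`. -/
theorem generate {W W' : Submodule ℚ (Q → ℚ)} (hW : Inv δ W) (hW' : Inv δ W') (hlt : W' < W)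
    (hmax : ∀ U : Submodule ℚ (Q → ℚ), Inv δ U → W' ≤ U → U < W → U = W')
    {f : Q → ℚ} (hf : f ∈ W) (hf' : f ∉ W') :
    W ≤ W' ⊔ Submodule.span ℚ (Set.range fun w : List A => fun q => f (act δ w q)) := by
  set U := W' ⊔ Submodule.span ℚ (Set.range fun w : List A => fun q => f (act δ w q)) with hU
  have hUW : U ≤ W := by
    refine sup_le hlt.le (Submodule.span_le.2 ?_)
    rintro _ ⟨w, rfl⟩
    exact hW w f hf
  have hfU : f ∈ U := by
    refine (le_sup_right : _ ≤ U) (Submodule.subset_span ⟨[], ?_⟩)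
    funext q
    simp [act]
  have hUinv : Inv δ U := by
    intro v g hg
    -- the pullback is linear
    have h1 : U ≤ Submodule.comap (LinearMap.funLeft ℚ ℚ (act δ v)) U := by
      refine sup_le ?_ (Submodule.span_le.2 ?_)
      · intro g hg
        exact (le_sup_left : W' ≤ U) (hW' v g hg)
      · rintro _ ⟨w, rfl⟩
        refine (le_sup_right : _ ≤ U) (Submodule.subset_span ⟨v ++ w, ?_⟩)
        funext q
        show f (act δ (v ++ w) q) = f (act δ w (act δ v q))
        rw [act_append]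
    exact h1 hg
  rcases hUW.lt_or_eq with h | h
  · exfalso
    have := hmax U hUinv le_sup_left h
    rw [this] at hfU
    exact hf' hfU
  · exact h.ge

theorem exists_letter (hDS : InDS (transMonoid δ)) {r : List A} (hr : ∃ q₀, ∀ q, act δ r q = q₀)
    {W W' : Submodule ℚ (Q → ℚ)} (hW : Inv δ W) (hW' : Inv δ W') (hlt : W' < W)
    (hc : cst Q ≤ W')
    (hmax : ∀ U : Submodule ℚ (Q → ℚ), Inv δ U → W' ≤ U → U < W → U = W') :
    ∃ a : A, ∀ f ∈ W, (fun q => f (δ q a)) ∈ W' := by
  classical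
  by_contra hno
  push Not at hno
  have hfin : Finite (Function.End Q) := inferInstanceAs (Finite (Q → Q))
  have hfin' : Finite (transMonoid δ) := Subtype.finite
  let N : Set (transMonoid δ) := {t | ∀ f ∈ W, (fun q => f (t.1 q)) ∈ W'}
  have hprime := prime_of_DS hDS N
    (by
      rintro ⟨u, wu, rfl⟩ ⟨x, wx, rfl⟩ hx f hf
      exact hx _ (hW wu f hf))
    (by
      rintro ⟨u, wu, rfl⟩ ⟨x, wx, rfl⟩ hx f hf
      exact hW' wu _ (hx f hf))
    (by
      intro h
      exact hlt.not_ge fun f hf => h f hf)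
    (by
      rintro ⟨x, wx, rfl⟩ ⟨y, wy, rfl⟩ hx hy
      simp only [N, Set.mem_ofPred_eq, not_forall] at hx hy
      obtain ⟨f, hf, hfx⟩ := hx
      obtain ⟨g, hg, hgy⟩ := hy
      have hgen := generate δ hW hW' hlt hmax (hW wx f hf) hfx
      by_contra hall
      push Not at hall
      apply hgy
      have h1 : W ≤ Submodule.comap (LinearMap.funLeft ℚ ℚ (act δ wy)) W' := by
        refine hgen.trans (sup_le ?_ (Submodule.span_le.2 ?_))
        · intro g hg
          exact hW' wy g hg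
        · rintro _ ⟨w, rfl⟩
          exact hall ⟨act δ w, act_mem δ w⟩ f hf
      exact h1 hg)
  have hall : ∀ w : List A, (⟨act δ w, act_mem δ w⟩ : transMonoid δ) ∉ N := by
    intro w
    induction w with
    | nil =>
      intro h
      exact hlt.not_ge fun f hf => h f hf
    | cons a w ih =>
      have ha : (⟨act δ [a], act_mem δ [a]⟩ : transMonoid δ) ∉ N := by
        obtain ⟨f, hf, hfa⟩ := hno a
        intro h
        exact hfa (h f hf)
      exact hprime _ _ ih ha
  obtain ⟨q₀, hq₀⟩ := hr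
  refine hall r fun f hf => hc (mem_cst.2 ⟨f q₀, ?_⟩)
  funext q
  show f (act δ r q) = f q₀
  rw [hq₀]

theorem exists_word (hDS : InDS (transMonoid δ)) {r : List A} (hr : ∃ q₀, ∀ q, act δ r q = q₀)
    [Nonempty Q] (n : ℕ) : ∀ W : Submodule ℚ (Q → ℚ), Inv δ W → cst Q ≤ W →
      Module.finrank ℚ W ≤ n + 1 →
      ∃ w : List A, w.length ≤ n ∧ ∀ f ∈ W, (fun q => f (act δ w q)) ∈ cst Q := by
  induction n with
  | zero =>
    intro W _ hc hd
    have h1 : Module.finrank ℚ (cst Q) = 1 := by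
      unfold cst
      rw [finrank_span_singleton]
      intro h
      have := congrFun h (Classical.arbitrary Q)
      simp at this
    have h2 : cst Q = W := Submodule.eq_of_le_of_finrank_le hc (by omega)
    exact ⟨[], le_rfl, fun f hf => h2 ▸ hf⟩
  | succ n ih =>
    intro W hW hc hd
    by_cases hcW : W = cst Q
    · exact ⟨[], Nat.zero_le _, fun f hf => hcW ▸ hf⟩
    -- a maximal proper invariant subspace
    have hlt0 : cst Q < W := lt_of_le_of_ne hc (Ne.symm hcW)
    obtain ⟨W', ⟨hW', hcW', hlt⟩, hmax⟩ : ∃ W' : Submodule ℚ (Q → ℚ),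
        (Inv δ W' ∧ cst Q ≤ W' ∧ W' < W) ∧
        ∀ U, (Inv δ U ∧ cst Q ≤ U ∧ U < W) → ¬ W' < U := by
      have hwf : WellFounded ((· > ·) : Submodule ℚ (Q → ℚ) → Submodule ℚ (Q → ℚ) → Prop) :=
        wellFounded_gt
      obtain ⟨W', h1, h2⟩ := hwf.has_min {U | Inv δ U ∧ cst Q ≤ U ∧ U < W}
        ⟨cst Q, inv_cst δ, le_rfl, hlt0⟩
      exact ⟨W', h1, fun U hU hlt => h2 U hU hlt⟩
    obtain ⟨a, ha⟩ := exists_letter δ hDS hr hW hW' hlt hcW' (fun U hU h1 h2 => by
      by_contra hne
      exact hmax U ⟨hU, hcW'.trans h1, h2⟩ (lt_of_le_of_ne h1 (Ne.symm hne)))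
    have hfin : Module.finrank ℚ W' < Module.finrank ℚ W := Submodule.finrank_lt_finrank_of_lt hlt
    obtain ⟨w, hw, hw2⟩ := ih W' hW' hcW' (by omega)
    refine ⟨w ++ [a], by simpa using hw, fun f hf => ?_⟩
    have h3 := hw2 _ (ha f hf)
    convert h3 using 2 with q
    rw [act_append]
    rfl

end Linear

theorem isReset_iff {Q A : Type*} [Fintype Q] [Nonempty Q] (δ : Q → A → Q) (w : List A) :
    IsReset δ w ↔ ∃ q₀, ∀ q, act δ w q = q₀ := by
  unfold IsReset
  rw [Set.ncard_eq_one]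
  constructor
  · rintro ⟨q₀, h⟩
    refine ⟨q₀, fun q => ?_⟩
    have : act δ w q ∈ Set.range (act δ w) := ⟨q, rfl⟩
    rw [h] at this
    exact this
  · rintro ⟨q₀, h⟩
    refine ⟨q₀, ?_⟩
    ext p
    constructor
    · rintro ⟨q, rfl⟩
      exact h q
    · rintro rfl
      exact ⟨Classical.arbitrary Q, h _⟩

/-- The upper bound. -/
theorem exists_short_reset {Q A : Type*} [Fintype Q] [Nonempty Q] (δ : Q → A → Q)
    (hDS : InDS (transMonoid δ)) {r : List A} (hr : IsReset δ r) :
    ∃ w : List A, w.length ≤ Fintype.card Q - 1 ∧ IsReset δ w := by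
  classical
  have hpos : 0 < Fintype.card Q := Fintype.card_pos
  obtain ⟨w, hw, hw2⟩ := exists_word δ hDS ((isReset_iff δ r).1 hr) (Fintype.card Q - 1) ⊤
    (fun _ _ _ => trivial) le_top (by
      rw [finrank_top, Module.finrank_fintype_fun_eq_card]
      omega)
  refine ⟨w, hw, (isReset_iff δ w).2 ⟨act δ w (Classical.arbitrary Q), fun q => ?_⟩⟩
  obtain ⟨c, hc⟩ := mem_cst.1
    (hw2 (fun p => if p = act δ w (Classical.arbitrary Q) then 1 else 0) trivial)
  have h1 := congrFun hc (Classical.arbitrary Q)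
  have h2 := congrFun hc q
  simp only [if_true] at h1
  rw [← h1] at h2
  by_contra hne
  rw [if_neg hne] at h2
  exact zero_ne_one h2

/-- The one-letter automaton `i ↦ min (i + 1) (n - 1)` on `n` states. -/
def chain (n : ℕ) (hn : 1 ≤ n) : Fin n → Unit → Fin n :=
  fun i _ => ⟨min (i.1 + 1) (n - 1), by omega⟩

theorem chain_act (n : ℕ) (hn : 1 ≤ n) (w : List Unit) (i : Fin n) :
    (act (chain n hn) w i).1 = min (i.1 + w.length) (n - 1) := by
  induction w generalizing i with
  | nil =>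
    have := i.2
    simp only [act, List.foldl_nil, List.length_nil, add_zero]
    omega
  | cons a w ih =>
    have h1 : act (chain n hn) (a :: w) i = act (chain n hn) w (chain n hn i a) := rfl
    rw [h1, ih]
    simp only [chain, List.length_cons]
    omega

theorem inDS_of_comm {M : Type*} [Monoid M] (h : ∀ x y : M, x * y = y * x) : InDS M := by
  have sub : ∀ x y z t : M, x ∈ ideal z → y ∈ ideal t → ideal (x * y) ⊆ ideal (z * t) := by
    rintro x y z t ⟨u, v, rfl⟩ ⟨u', v', rfl⟩
    refine ideal_subset ⟨u * v * (u' * v'), 1, ?_⟩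
    calc u * z * v * (u' * t * v') = u * (z * v) * (u' * (t * v')) := by simp [mul_assoc]
      _ = u * (v * z) * (u' * (v' * t)) := by rw [h z v, h t v']
      _ = u * v * (z * (u' * v')) * t := by simp [mul_assoc]
      _ = u * v * (u' * v' * z) * t := by rw [h z (u' * v')]
      _ = u * v * (u' * v') * (z * t) * 1 := by simp [mul_assoc]
  intro x y z t h1 h2 h3 _
  have hxz : ideal x = ideal z := h1.trans h2
  have hyt : ideal y = ideal t := h2.trans h3
  refine Set.Subset.antisymm (sub x y z t ?_ ?_) (sub z t x y ?_ ?_)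
  · rw [← hxz]; exact mem_ideal_self x
  · rw [← hyt]; exact mem_ideal_self y
  · rw [hxz]; exact mem_ideal_self z
  · rw [hyt]; exact mem_ideal_self t

theorem chain_inDS (n : ℕ) (hn : 1 ≤ n) : InDS (transMonoid (chain n hn)) := by
  apply inDS_of_comm
  rintro ⟨_, u, rfl⟩ ⟨_, v, rfl⟩
  apply Subtype.ext
  funext i
  apply Fin.ext
  show (act (chain n hn) u (act (chain n hn) v i)).1 = (act (chain n hn) v (act (chain n hn) u i)).1
  rw [chain_act, chain_act, chain_act, chain_act]
  omega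

theorem chain_reset (n : ℕ) (hn : 1 ≤ n) (w : List Unit) :
    IsReset (chain n hn) w ↔ n - 1 ≤ w.length := by
  have : Nonempty (Fin n) := ⟨⟨0, hn⟩⟩
  rw [isReset_iff]
  constructor
  · rintro ⟨q₀, h⟩
    have h1 := congrArg Fin.val (h ⟨0, hn⟩)
    have h2 := congrArg Fin.val (h ⟨n - 1, by omega⟩)
    rw [chain_act] at h1 h2
    simp only at h1 h2
    omega
  · intro h
    refine ⟨⟨n - 1, by omega⟩, fun q => ?_⟩
    apply Fin.ext
    rw [chain_act]
    simp only
    omega

/-- `C_DS(n) = n - 1`. -/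
theorem exact_value (n : ℕ) (hn : 1 ≤ n) :
    IsGreatest {l : ℕ | ∃ (Q A : Type) (_ : Fintype Q) (_ : Finite A) (_ : Nonempty A)
        (δ : Q → A → Q), Fintype.card Q = n ∧ InDS (transMonoid δ) ∧
        IsLeast {k | ∃ w : List A, IsReset δ w ∧ w.length = k} l} (n - 1) := by
  constructor
  · refine ⟨Fin n, Unit, inferInstance, inferInstance, inferInstance, chain n hn,
      Fintype.card_fin n, chain_inDS n hn, ?_, ?_⟩
    · exact ⟨List.replicate (n - 1) (), (chain_reset n hn _).2 (by simp), by simp⟩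
    · rintro k ⟨w, hw, rfl⟩
      exact (chain_reset n hn w).1 hw
  · rintro l ⟨Q, A, _, _, _, δ, hQ, hDS, ⟨r, hr, _⟩, hmin⟩
    have : Nonempty Q := by
      rw [← Fintype.card_pos_iff]
      omega
    obtain ⟨w, hw, hw2⟩ := exists_short_reset δ hDS hr
    exact (hmin ⟨w, hw2, rfl⟩).trans (by omega)

end Pool.Agent.Y555.DS
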